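import Pool.Agent.helper91.SI.Spec5

set_option autoImplicit false

namespace Pool.Agent.helper91.SI

open Pool.Agent.helper20.IG (IsIndepDom IsISet iGraph)

theorem ONE (hMIX : MIX_stmt) (hCFL : CFL_stmt) : ONE_stmt := by
  intro V _ G K X Y s v t w hT h4 hK hX hY hs
  classical
  by_contra ht
  obtain ⟨hX1, hsX, hvX, hsv, hX2⟩ := hX
  obtain ⟨hY1, htY, hwY, htw, hY2⟩ := hY
  have hv : v ∈ K := (hK s v hsv).mp hs
  have hw : w ∉ K := fun h => ht ((hK t w htw).mpr h)
  have hst : s ≠ t := fun h => ht (h ▸ hs)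
  let M : Finset V := X.filter (fun z => z ∈ K) ∪ Y.filter (fun z => z ∉ K)
  have hM : ∀ z, z ∈ M ↔ (z ∈ K ∧ z ∈ X) ∨ (z ∉ K ∧ z ∈ Y) := by
    intro z
    simp only [M, Finset.mem_union, Finset.mem_filter]
    tauto
  have hMI : IsISet G M := hMIX V G K X Y M hK hX1 hY1 hM
  have h1 : IsISet G (insert v (M.erase s)) := by
    apply hMIX V G K (insert v (X.erase s)) Y _ hK hX2 hY1
    intro z
    rw [Finset.mem_insert, Finset.mem_erase, hM, Finset.mem_insert, Finset.mem_erase]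
    by_cases hzv : z = v
    · subst hzv
      simp [hv]
    by_cases hzs : z = s
    · subst hzs
      simp [hs, hzv]
    · simp [hzv, hzs]
  have h2 : IsISet G (insert w (M.erase t)) := by
    apply hMIX V G K X (insert w (Y.erase t)) _ hK hX1 hY2
    intro z
    rw [Finset.mem_insert, Finset.mem_erase, hM, Finset.mem_insert, Finset.mem_erase]
    by_cases hzw : z = w
    · subst hzw
      simp [hw]
    by_cases hzt : z = t
    · subst hzt
      simp [ht, hzw]
    · simp [hzw, hzt]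
  have hS1 : Slide G M s v := by
    refine ⟨hMI, (hM s).mpr (Or.inl ⟨hs, hsX⟩), ?_, hsv, h1⟩
    intro h
    rcases (hM v).mp h with ⟨_, h⟩ | ⟨h, _⟩
    · exact hvX h
    · exact h hv
  have hS2 : Slide G M t w := by
    refine ⟨hMI, (hM t).mpr (Or.inr ⟨ht, htY⟩), ?_, htw, h2⟩
    intro h
    rcases (hM w).mp h with ⟨h, _⟩ | ⟨_, h⟩
    · exact hw h
    · exact hwY h
  rcases hCFL V G M s v t w hT h4 hS1 hS2 hst with h | ⟨x, hx1, hx2, _⟩
  · exact hw ((hK v w h).mp hv)
  · exact ht ((hK t x hx2).mpr ((hK s x hx1).mp hs))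

end Pool.Agent.helper91.SI
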