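import Pool.Agent.helper91.SI.Spec4

set_option autoImplicit false

namespace Pool.Agent.helper91.SI

set_option maxRecDepth 20000 in
theorem P6R : P6R_stmt := by
  unfold P6R_stmt
  decide +kernel

end Pool.Agent.helper91.SI
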